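import Pool.Agent.helper58.FI4E.Spec

set_option autoImplicit false

namespace Pool.Agent.FI4E

open Pool.Agent.helper58.DC Pool.Agent.DI Pool.Agent.GR Pool.Agent.OB Pool.Agent.DR Pool.Agent.FI Pool.Agent.FI3 Pool.Agent.FI4 Pool.Agent.FI4I

theorem TSJ_one {G : Type} [Group G] (ψ : G → ℂ) : funMap (1 : MulAut G) ψ = ψ := by
  funext x
  simp [funMap]

theorem TSJ_inj {G : Type} [Group G] (β : MulAut G) : Function.Injective (funMap β : (G → ℂ) → (G → ℂ)) := by
  intro a b h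
  have h1 := congrArg (funMap β⁻¹) h
  rw [← funMap_mul, ← funMap_mul, inv_mul_cancel, TSJ_one, TSJ_one] at h1
  exact h1

theorem TSJ_inv {G : Type} [Group G] (β : MulAut G) (φ : G → ℂ) : funMap β (funMap β⁻¹ φ) = φ := by
  rw [← funMap_mul, mul_inv_cancel, TSJ_one]

theorem TSJ (hBAA : BAA_stmt) (hIM : IM_stmt) : TSJ_stmt := by
  intro p M G _ _ H α β
  have hirr : ∀ (L : Subgroup G) (ψ : G → ℂ), ψ ∈ IrrOn L ↔ funMap β ψ ∈ IrrOn (am β L) := by
    intro L ψ
    exact (hBAA G M p β L L L ψ ψ ψ).2.2.1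
  have hSB : ∀ (L : Subgroup G) (η ψ : G → ℂ), SB M L η ψ ↔ SB M (am β L) (funMap β η) (funMap β ψ) := by
    intro L η ψ
    exact (hBAA G M p β L L L η ψ ψ).2.2.2.1
  have hEE : ∀ (L : Subgroup G) (η ψ : G → ℂ), EE p (am β L) (funMap β η) (funMap β ψ) = EE p L η ψ := by
    intro L η ψ
    exact (hBAA G M p β L L L η ψ ψ).2.2.2.2.2.2.1
  have h1 : ∀ S : Set (G → ℂ), tS p (am β H) (funMap β '' S) (β * α * β⁻¹) = tS p H S α := by
    intro S
    unfold tS
    rw [finsum_mem_image (TSJ_inj β).injOn]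
    refine finsum_congr fun ψ => finsum_congr fun _ => ?_
    rw [← hEE H]
    have e : funMap (β * α * β⁻¹) (funMap β ψ) = funMap β (funMap α ψ) := by
      rw [← funMap_mul, ← funMap_mul]
      congr 1
      group
    rw [e]
  have h2 : ∀ χ : G → ℂ, Stb M χ β → tL p M χ (am β H) (β * α * β⁻¹) = tL p M χ H α := by
    intro χ hst
    unfold tL
    have hB : Blk M χ (am β H) = funMap β '' Blk M χ H := by
      ext φ
      constructor
      · rintro ⟨hφ, hi⟩
        refine ⟨funMap β⁻¹ φ, ⟨?_, ?_⟩, TSJ_inv β φ⟩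
        · rw [hirr, TSJ_inv]
          exact hφ
        · rw [← (hIM G M (funMap β⁻¹ φ) χ χ).2.2.2 β, TSJ_inv]
          have h3 : Induces M χ (funMap β χ) := (hIM G M (funMap β χ) χ χ).2.1 hst
          exact (hIM G M φ χ (funMap β χ)).2.2.1 hi h3
      · rintro ⟨ψ, ⟨hψ, hi⟩, rfl⟩
        refine ⟨(hirr H ψ).1 hψ, ?_⟩
        have h3 : Induces M (funMap β ψ) (funMap β χ) := ((hIM G M ψ χ χ).2.2.2 β).2 hi
        exact (hIM G M (funMap β ψ) (funMap β χ) χ).2.2.1 h3 hst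
    rw [hB]
    exact h1 _
  refine ⟨h1, h2, ?_, ?_⟩
  · intro N φ hN hφ
    have hB : Bq M N (am β H) φ = funMap β '' Bq M N H φ := by
      ext η
      constructor
      · rintro ⟨hη, hs⟩
        refine ⟨funMap β⁻¹ η, ⟨?_, ?_⟩, TSJ_inv β η⟩
        · rw [hirr, TSJ_inv]
          exact hη
        · rw [hSB N, hN, TSJ_inv]
          exact hs.trans hφ.symm
      · rintro ⟨ψ, ⟨hψ, hs⟩, rfl⟩
        refine ⟨(hirr H ψ).1 hψ, ?_⟩
        have h3 := (hSB N ψ φ).1 hs
        rw [hN] at h3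
        exact h3.trans hφ
    rw [hB]
    exact h1 _
  · intro χ hχ g
    have hα := hBAA G M p α H H H χ χ χ
    have hcj : cjF g χ = χ := (hα.2.2.2.2.2.2.2.2.2.2 g hχ).1
    -- the statement for conj g
    have hirr' : ∀ (L : Subgroup G) (ψ : G → ℂ), ψ ∈ IrrOn L ↔ funMap (MulAut.conj g) ψ ∈ IrrOn (am (MulAut.conj g) L) := by
      intro L ψ
      exact (hBAA G M p (MulAut.conj g) L L L ψ ψ ψ).2.2.1
    have hEE' : ∀ (L : Subgroup G) (η ψ : G → ℂ), EE p (am (MulAut.conj g) L) (funMap (MulAut.conj g) η) (funMap (MulAut.conj g) ψ) = EE p L η ψ := by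
      intro L η ψ
      exact (hBAA G M p (MulAut.conj g) L L L η ψ ψ).2.2.2.2.2.2.1
    have hst : Stb M χ (MulAut.conj g) := by
      unfold Stb
      rw [funMap_conj, hcj]
      exact (hIM G M χ χ χ).1
    have hB : Blk M χ (cjS g H) = funMap (MulAut.conj g) '' Blk M χ H := by
      rw [← am_conj]
      ext φ
      constructor
      · rintro ⟨hφ, hi⟩
        refine ⟨funMap (MulAut.conj g)⁻¹ φ, ⟨?_, ?_⟩, TSJ_inv _ φ⟩
        · rw [hirr', TSJ_inv]
          exact hφ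
        · rw [← (hIM G M (funMap (MulAut.conj g)⁻¹ φ) χ χ).2.2.2 (MulAut.conj g), TSJ_inv]
          have h3 : Induces M χ (funMap (MulAut.conj g) χ) := (hIM G M (funMap (MulAut.conj g) χ) χ χ).2.1 hst
          exact (hIM G M φ χ (funMap (MulAut.conj g) χ)).2.2.1 hi h3
      · rintro ⟨ψ, ⟨hψ, hi⟩, rfl⟩
        refine ⟨(hirr' H ψ).1 hψ, ?_⟩
        have h3 : Induces M (funMap (MulAut.conj g) ψ) (funMap (MulAut.conj g) χ) := ((hIM G M ψ χ χ).2.2.2 (MulAut.conj g)).2 hi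
        exact (hIM G M (funMap (MulAut.conj g) ψ) (funMap (MulAut.conj g) χ) χ).2.2.1 h3 hst
    unfold tL
    rw [hB, ← am_conj]
    unfold tS
    rw [finsum_mem_image (TSJ_inj (MulAut.conj g)).injOn]
    refine finsum_congr fun ψ => finsum_congr fun _ => ?_
    rw [← hEE' H]
    have e : funMap (MulAut.conj g * α * (MulAut.conj g)⁻¹) (funMap (MulAut.conj g) ψ) = funMap (MulAut.conj g) (funMap α ψ) := by
      rw [← funMap_mul, ← funMap_mul]
      congr 1
      group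
    rw [e]

end Pool.Agent.FI4E
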